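import Pool.Agent.Helper2.SV.GoalsC

/-!
# SV-AJ: the numbering of a 5-hole in `M(u)` off `V0`
-/

set_option autoImplicit false

namespace Pool.Agent.Helper64.SV

open Pool.Agent.Helper2.SV

theorem pairs3 : ∀ a b c : Fin 5, ¬ (a ≠ b ∧ a ≠ b + 1 ∧ a + 1 ≠ b ∧ a ≠ c ∧ a ≠ c + 1 ∧
    a + 1 ≠ c ∧ b ≠ c ∧ b ≠ c + 1 ∧ b + 1 ≠ c) := by decide

theorem step2 : ∀ a b : Fin 5, a ≠ b → a ≠ b + 1 → a + 1 ≠ b → b = a + 2 ∨ b = a + 3 := by decide

theorem cyc5 (x0 x1 x2 x3 x4 : Fin 5) (h0 : x1 = x0 + 2 ∨ x1 = x0 + 3)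
    (h1 : x2 = x1 + 2 ∨ x2 = x1 + 3) (h2 : x3 = x2 + 2 ∨ x3 = x2 + 3)
    (h3 : x4 = x3 + 2 ∨ x4 = x3 + 3) (h4 : x0 = x4 + 2 ∨ x0 = x4 + 3) :
    (x1 = x0 + 2 ∧ x2 = x1 + 2 ∧ x3 = x2 + 2 ∧ x4 = x3 + 2 ∧ x0 = x4 + 2) ∨
      (x1 = x0 + 3 ∧ x2 = x1 + 3 ∧ x3 = x2 + 3 ∧ x4 = x3 + 3 ∧ x0 = x4 + 3) := by
  rcases h0 with rfl | rfl <;> rcases h1 with rfl | rfl <;> rcases h2 with rfl | rfl <;>
    rcases h3 with rfl | rfl <;> revert x0 <;> decide

theorem goalAJ : G_AJ := by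
  intro V _ G u d _ hW hF
  have hd : ∀ m ∈ Mn G u, ∀ j, m ≠ d j := by
    rintro m ⟨_, hm⟩ j rfl
    exact hm (hW.spoke j)
  have hpair : ∀ m, m ∈ Mn G u → m ∉ V0 G u d →
      ∃ a : Fin 5, G.Adj m (d a) ∧ G.Adj m (d (a + 1)) := by
    intro m hm hm0
    have h1 : ∃ i, G.Adj m (d i) := by
      by_contra hcon
      push Not at hcon
      exact hm0 ⟨hm, hcon⟩
    obtain ⟨i, hi⟩ := h1
    rcases hF.side m i (hd m hm) hi with h | h
    · exact ⟨i, hi, h⟩
    · refine ⟨i - 1, h, ?_⟩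
      rwa [sub_add_cancel]
  have hdis : ∀ m m', m ∈ Mn G u → m' ∈ Mn G u → m ≠ m' → ¬ G.Adj m m' →
      ∀ i, G.Adj m (d i) → ¬ G.Adj m' (d i) :=
    fun m m' hm hm' hne hn i h h' => hn (hF.common m m' i hm hm' hne h h')
  have hne : ∀ m m' a b, m ∈ Mn G u → m' ∈ Mn G u → m ≠ m' → ¬ G.Adj m m' →
      G.Adj m (d a) → G.Adj m' (d b) → a ≠ b := by
    rintro m m' a b hm hm' hne hn h h' rfl
    exact hdis m m' hm hm' hne hn a h h'
  refine ⟨?_, ?_⟩
  · intro c hc hc0 hinj hnon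
    choose a ha1 ha2 using fun i => hpair (c i) (hc i) (hc0 i)
    have hneq : ∀ j : Fin 5, c j ≠ c (j + 1) := fun j h => by
      have h5 : ∀ j : Fin 5, j ≠ j + 1 := by decide
      exact h5 j (hinj h)
    have hst : ∀ j, a (j + 1) = a j + 2 ∨ a (j + 1) = a j + 3 := by
      intro j
      have h1 := hne _ _ _ _ (hc j) (hc (j + 1)) (hneq j) (hnon j) (ha1 j) (ha1 (j + 1))
      have h2 := hne _ _ _ _ (hc j) (hc (j + 1)) (hneq j) (hnon j) (ha1 j) (ha2 (j + 1))
      have h3 := hne _ _ _ _ (hc j) (hc (j + 1)) (hneq j) (hnon j) (ha2 j) (ha1 (j + 1))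
      exact step2 _ _ h1 h2 h3
    have hcyc := cyc5 (a 0) (a 1) (a 2) (a 3) (a 4) (hst 0) (hst 1) (hst 2) (hst 3) (hst 4)
    -- the non-neighbours
    have hNn : ∀ j : Fin 5, ∀ i, G.Adj (c (j + 1)) (d i) → ¬ G.Adj (c j) (d i) := by
      intro j i h h'
      exact hdis _ _ (hc j) (hc (j + 1)) (hneq j) (hnon j) i h' h
    have hNp : ∀ j : Fin 5, ∀ i, G.Adj (c j) (d i) → ¬ G.Adj (c (j + 1)) (d i) :=
      fun j i h h' => hNn j i h' h
    have hV2 : ∀ j, c j ∈ V2 G u d (a j) := by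
      intro j
      refine ⟨hc j, fun i => ⟨fun h => ?_, ?_⟩⟩
      · have hj : j - 1 + 1 = j := sub_add_cancel j 1
        have n1 : i ≠ a (j + 1) := fun h' => hNn j i (by rw [h']; exact ha1 (j + 1)) h
        have n2 : i ≠ a (j + 1) + 1 := fun h' => hNn j i (by rw [h']; exact ha2 (j + 1)) h
        have n3 : i ≠ a (j - 1) := fun h' => by
          have := hNp (j - 1) i (by rw [h']; exact ha1 (j - 1))
          rw [hj] at this
          exact this h
        have n4 : i ≠ a (j - 1) + 1 := fun h' => by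
          have := hNp (j - 1) i (by rw [h']; exact ha2 (j - 1))
          rw [hj] at this
          exact this h
        have key : (∀ k, a (k + 1) = a k + 2) ∨ (∀ k, a (k + 1) = a k + 3) := by
          rcases hcyc with ⟨e0, e1, e2, e3, e4⟩ | ⟨e0, e1, e2, e3, e4⟩
          · left
            intro k
            fin_cases k
            exacts [e0, e1, e2, e3, e4]
          · right
            intro k
            fin_cases k
            exacts [e0, e1, e2, e3, e4]
        have fin2 : ∀ i x y z : Fin 5, i ≠ y → i ≠ y + 1 → i ≠ z → i ≠ z + 1 →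
            ((y = x + 2 ∧ x = z + 2) ∨ (y = x + 3 ∧ x = z + 3)) → i = x ∨ i = x + 1 := by
          intro i x y z h1 h2 h3 h4 h5
          rcases h5 with ⟨rfl, rfl⟩ | ⟨rfl, rfl⟩ <;> revert i z <;> decide
        refine fin2 i (a j) (a (j + 1)) (a (j - 1)) n1 n2 n3 n4 ?_
        rcases key with hk | hk
        · left
          refine ⟨hk j, ?_⟩
          have := hk (j - 1)
          rwa [hj] at this
        · right
          refine ⟨hk j, ?_⟩
          have := hk (j - 1)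
          rwa [hj] at this
      · rintro (rfl | rfl)
        · exact ha1 j
        · exact ha2 j
    have hsy : ∀ x y : Fin 5, y = x + 1 → ¬ G.Adj (c x) (c y) ∧ ¬ G.Adj (c y) (c x) := by
      rintro x y rfl
      exact ⟨hnon x, fun h => hnon x h.symm⟩
    rcases hcyc with ⟨e0, e1, e2, e3, e4⟩ | ⟨e0, e1, e2, e3, e4⟩
    · refine ⟨fun i => c (3 * (i - a 0)), fun i => ?_, fun i => ?_⟩
      · have h1 := hV2 (3 * (i - a 0))
        have h2 : a (3 * (i - a 0)) = i := by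
          have gen : ∀ j : Fin 5, a j = a 0 + 2 * j := by
            intro j
            have f1 : ∀ x : Fin 5, x = x + 2 * 0 ∧ x + 2 = x + 2 * 1 ∧ x + 2 + 2 = x + 2 * 2 ∧
              x + 2 + 2 + 2 = x + 2 * 3 ∧ x + 2 + 2 + 2 + 2 = x + 2 * 4 := by decide
            obtain ⟨g0, g1, g2, g3, g4⟩ := f1 (a 0)
            fin_cases j
            · exact g0
            · exact e0.trans g1
            · exact (e1.trans (by rw [e0])).trans g2
            · exact (e2.trans (by rw [e1, e0])).trans g3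
            · exact (e3.trans (by rw [e2, e1, e0])).trans g4
          rw [gen]
          have f2 : ∀ x i : Fin 5, x + 2 * (3 * (i - x)) = i := by decide
          exact f2 _ _
        rwa [h2] at h1
      · refine (hsy _ _ ?_).1
        have f3 : ∀ x i : Fin 5, 3 * (i + 2 - x) = 3 * (i - x) + 1 := by decide
        exact f3 _ _
    · refine ⟨fun i => c (2 * (i - a 0)), fun i => ?_, fun i => ?_⟩
      · have h1 := hV2 (2 * (i - a 0))
        have h2 : a (2 * (i - a 0)) = i := by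
          have gen : ∀ j : Fin 5, a j = a 0 + 3 * j := by
            intro j
            have f1 : ∀ x : Fin 5, x = x + 3 * 0 ∧ x + 3 = x + 3 * 1 ∧ x + 3 + 3 = x + 3 * 2 ∧
              x + 3 + 3 + 3 = x + 3 * 3 ∧ x + 3 + 3 + 3 + 3 = x + 3 * 4 := by decide
            obtain ⟨g0, g1, g2, g3, g4⟩ := f1 (a 0)
            fin_cases j
            · exact g0
            · exact e0.trans g1
            · exact (e1.trans (by rw [e0])).trans g2
            · exact (e2.trans (by rw [e1, e0])).trans g3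
            · exact (e3.trans (by rw [e2, e1, e0])).trans g4
          rw [gen]
          have f2 : ∀ x i : Fin 5, x + 3 * (2 * (i - x)) = i := by decide
          exact f2 _ _
        rwa [h2] at h1
      · refine (hsy _ _ ?_).2
        have f3 : ∀ x i : Fin 5, 2 * (i - x) = 2 * (i + 2 - x) + 1 := by decide
        exact f3 _ _
  · intro x y z hx hy hz hx0 hy0 hz0 hxy hxz hyz nxy nxz nyz
    obtain ⟨a, a1, a2⟩ := hpair x hx hx0
    obtain ⟨b, b1, b2⟩ := hpair y hy hy0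
    obtain ⟨e, e1, e2⟩ := hpair z hz hz0
    exact pairs3 a b e ⟨hne _ _ _ _ hx hy hxy nxy a1 b1, hne _ _ _ _ hx hy hxy nxy a1 b2,
      hne _ _ _ _ hx hy hxy nxy a2 b1, hne _ _ _ _ hx hz hxz nxz a1 e1,
      hne _ _ _ _ hx hz hxz nxz a1 e2, hne _ _ _ _ hx hz hxz nxz a2 e1,
      hne _ _ _ _ hy hz hyz nyz b1 e1, hne _ _ _ _ hy hz hyz nyz b1 e2,
      hne _ _ _ _ hy hz hyz nyz b2 e1⟩

end Pool.Agent.Helper64.SV
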